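import Mathlib
import Pool.Agent.TH275.Sub

set_option autoImplicit false

/-!
# Subgaussian sets of characters on `(ℤ/4ℤ)^ℕ` are the finite unions of quasi-independent sets

The theorem is proved for `G = (ℤ/qℤ)^ℕ` for every `q ≥ 1`; the question is the case `q = 4`.
-/

namespace Pool.Agent.Results.MP_080bf7_an.SubgaussianUnions

open MeasureTheory
open scoped ENNReal

/-- The compact abelian group `G = (ℤ/qℤ)^ℕ` (product topology). -/
abbrev G (q : ℕ) : Type := ℕ → ZMod q

/-- Its dual group: the finitely supported sequences. -/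
abbrev Ghat (q : ℕ) : Type := ℕ →₀ ZMod q

variable {q : ℕ} [NeZero q]

/-- The normalised Haar measure of `G` (the Haar measure which gives mass `1` to all of `G`). -/
noncomputable def haarG (q : ℕ) [NeZero q] : Measure (G q) := Measure.addHaarMeasure ⊤

/-- The character `γ_n(t) = exp(2πi ∑_k t_k n_k / q)`. -/
noncomputable def chr (n : Ghat q) (t : G q) : ℂ :=
  Complex.exp (2 * Real.pi * Complex.I *
    ((∑ k ∈ n.support, (t k).val * (n k).val : ℕ) : ℂ) / q)

/-- The norm `‖f‖_{ψ₂} = inf {c > 0 : ∫ exp(|f|² / c²) ≤ e}`. -/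
noncomputable def psi2 (f : G q → ℂ) : ℝ :=
  sInf {c : ℝ | 0 < c ∧ ∫⁻ t, ENNReal.ofReal (Real.exp (‖f t‖ ^ 2 / c ^ 2)) ∂(haarG q) ≤
    ENNReal.ofReal (Real.exp 1)}

/-- `Λ` is subgaussian: there is `C` with `‖∑ a_n γ_n‖_{ψ₂} ≤ C (∑ |a_n|²)^{1/2}` for every finitely
supported family of complex coefficients on `Λ`. -/
def Subgaussian (Λ : Set (Ghat q)) : Prop :=
  ∃ C : ℝ, ∀ (A : Finset (Ghat q)) (a : Ghat q → ℂ), (A : Set (Ghat q)) ⊆ Λ →
    psi2 (fun t => ∑ n ∈ A, a n * chr n t) ≤ C * √(∑ n ∈ A, ‖a n‖ ^ 2)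

/-- `Λ` is quasi-independent: a relation `∑_{n ∈ A} ξ_n n = 0` with `A ⊆ Λ` finite and
`ξ_n ∈ {-1, 0, 1}` is trivial. -/
def QuasiIndependent (Λ : Set (Ghat q)) : Prop :=
  ∀ A : Finset (Ghat q), (A : Set (Ghat q)) ⊆ Λ → ∀ ξ : Ghat q → ℤ,
    (∀ n ∈ A, ξ n = -1 ∨ ξ n = 0 ∨ ξ n = 1) → ∑ n ∈ A, ξ n • n = 0 → ∀ n ∈ A, ξ n = 0

lemma chr_eq (n : Ghat q) (t : G q) :
    chr n t = ZMod.stdAddChar (n.sum fun k a => t k * a) := by
  have h1 := ZMod.stdAddChar_coe (N := q) ((∑ k ∈ n.support, (t k).val * (n k).val : ℕ) : ℤ)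
  unfold chr
  have h2 : (((∑ k ∈ n.support, (t k).val * (n k).val : ℕ) : ℤ) : ZMod q) =
      n.sum fun k a => t k * a := by
    rw [Int.cast_natCast, Nat.cast_sum]
    unfold Finsupp.sum
    apply Finset.sum_congr rfl
    intro k _
    rw [Nat.cast_mul, ZMod.natCast_zmod_val, ZMod.natCast_zmod_val]
  rw [← h2, h1]
  push_cast
  rfl

lemma chr_add_left (m n : Ghat q) (t : G q) : chr (m + n) t = chr m t * chr n t := by
  rw [chr_eq, chr_eq, chr_eq, ← AddChar.map_add_eq_mul]
  congr 1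
  exact Finsupp.sum_add_index' (fun k => by simp) (fun k a b => by ring)

lemma chr_add_right (n : Ghat q) (s t : G q) : chr n (s + t) = chr n s * chr n t := by
  rw [chr_eq, chr_eq, chr_eq, ← AddChar.map_add_eq_mul]
  congr 1
  unfold Finsupp.sum
  rw [← Finset.sum_add_distrib]
  apply Finset.sum_congr rfl
  intro k _
  simp only [Pi.add_apply, add_mul]

lemma chr_cont (n : Ghat q) : Continuous (chr n) := by
  have h1 : chr n = fun t => ZMod.stdAddChar (n.sum fun k a => t k * a) := by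
    ext t; exact chr_eq n t
  rw [h1]
  have h2 : Continuous fun t : G q => (n.sum fun k a => t k * a) := by
    unfold Finsupp.sum
    exact continuous_finsetSum _ fun k _ => (continuous_apply k).mul continuous_const
  exact (continuous_of_discreteTopology (f := fun x : ZMod q => (ZMod.stdAddChar x : ℂ))).comp h2

instance : IsProbabilityMeasure (haarG q) := by
  constructor
  have := Measure.addHaarMeasure_self (K₀ := (⊤ : TopologicalSpace.PositiveCompacts (G q)))
  simpa [haarG] using this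

instance : (haarG q).IsAddLeftInvariant := by
  unfold haarG
  infer_instance

lemma chars : TH275.Sub.Chars (haarG q) (chr (q := q)) := by
  refine ⟨fun t => ?_, chr_add_left, fun n t => ?_, fun n => (chr_cont n).measurable, fun n hn => ?_⟩
  · rw [chr_eq]; simp
  · rw [chr_eq]; exact AddChar.norm_apply _ _
  · obtain ⟨k, hk⟩ : ∃ k, n k ≠ 0 := by
      by_contra hc
      push Not at hc
      exact hn (Finsupp.ext hc)
    have h1 : chr n (Pi.single k 1) ≠ 1 := by
      rw [chr_eq]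
      have h2 : (n.sum fun j a => (Pi.single k 1 : G q) j * a) = n k := by
        rw [Finsupp.sum, Finset.sum_eq_single k]
        · simp
        · intro j _ hj
          rw [Pi.single_eq_of_ne hj, zero_mul]
        · intro h3
          rw [Finsupp.notMem_support_iff.1 h3, mul_zero]
      rw [h2]
      intro h3
      apply hk
      rw [← AddChar.map_zero_eq_one (ZMod.stdAddChar (N := q))] at h3
      exact ZMod.injective_stdAddChar h3
    have h2 : ∫ t, chr n t ∂(haarG q) = chr n (Pi.single k 1) * ∫ t, chr n t ∂(haarG q) := by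
      rw [← integral_const_mul]
      simp_rw [← chr_add_right]
      exact (integral_add_left_eq_self (fun t => chr n t) (Pi.single k 1)).symm
    have h3 : (chr n (Pi.single k 1) - 1) * ∫ t, chr n t ∂(haarG q) = 0 := by
      rw [sub_mul, one_mul, ← h2, sub_self]
    rcases mul_eq_zero.1 h3 with h4 | h4
    · exact absurd (sub_eq_zero.1 h4) h1
    · exact h4

lemma int_poly (A : Finset (Ghat q)) (a : Ghat q → ℂ) (c : ℝ) :
    Integrable (fun t => Real.exp (‖∑ n ∈ A, a n * chr n t‖ ^ 2 / c ^ 2)) (haarG q) := by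
  have hm : Continuous fun t : G q => Real.exp (‖∑ n ∈ A, a n * chr n t‖ ^ 2 / c ^ 2) :=
    Real.continuous_exp.comp (((continuous_finsetSum _ fun n _ =>
      continuous_const.mul (chr_cont n)).norm.pow 2).div_const _)
  exact hm.integrable_of_hasCompactSupport (HasCompactSupport.of_compactSpace _)

lemma lint_poly (A : Finset (Ghat q)) (a : Ghat q → ℂ) (c : ℝ) :
    ∫⁻ t, ENNReal.ofReal (Real.exp (‖∑ n ∈ A, a n * chr n t‖ ^ 2 / c ^ 2)) ∂(haarG q) =
      ENNReal.ofReal (∫ t, Real.exp (‖∑ n ∈ A, a n * chr n t‖ ^ 2 / c ^ 2) ∂(haarG q)) :=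
  (ofReal_integral_eq_lintegral_ofReal (int_poly A a c) (ae_of_all _ fun t => (Real.exp_pos _).le)).symm

/-- **A set of non-zero characters of `(ℤ/qℤ)^ℕ` is subgaussian if and only if it is a finite union of
quasi-independent sets.** -/
theorem result (q : ℕ) [NeZero q] (Λ : Set (Ghat q)) (h0 : (0 : Ghat q) ∉ Λ) :
    Subgaussian Λ ↔
      ∃ (k : ℕ) (Q : Fin k → Set (Ghat q)), (∀ i, QuasiIndependent (Q i)) ∧ Λ = ⋃ i, Q i := by
  classical
  have hq : 0 < q := NeZero.pos q
  have hexp : ∀ x : Ghat q, q • x = 0 := by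
    intro x
    ext k
    simp
  constructor
  · rintro ⟨C, hC⟩
    have hfin : ∀ D : Finset (Ghat q), (D : Set (Ghat q)) ⊆ Λ →
        Finite (AddSubgroup.closure (D : Set (Ghat q))) := fun D _ =>
      Pool.Agent.H337R3.Sid.closure_finite q hq D fun x _ => hexp x
    obtain ⟨K, hK⟩ := TH275.Sub.small_of_subgaussian (μ := haarG q) chars Λ hfin h0 (max C 0) (by
      intro A hA c hc
      have hc0 : 0 < c := lt_of_le_of_lt (by positivity) hc
      have h1 := hC A (fun _ => 1) hA
      have h2 : √(∑ n ∈ A, ‖(1 : ℂ)‖ ^ 2) = √(A.card) := by simp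
      rw [h2] at h1
      have h3 : psi2 (fun t : G q => ∑ n ∈ A, 1 * chr n t) < c := by
        refine lt_of_le_of_lt h1 (lt_of_le_of_lt ?_ hc)
        exact mul_le_mul_of_nonneg_right (le_max_left _ _) (Real.sqrt_nonneg _)
      have hne : {c : ℝ | 0 < c ∧ ∫⁻ t, ENNReal.ofReal
          (Real.exp (‖∑ n ∈ A, (1 : ℂ) * chr n t‖ ^ 2 / c ^ 2)) ∂(haarG q) ≤
            ENNReal.ofReal (Real.exp 1)}.Nonempty := by
        refine ⟨(A.card : ℝ) + 1, by positivity, ?_⟩
        calc ∫⁻ t, ENNReal.ofReal (Real.exp (‖∑ n ∈ A, (1 : ℂ) * chr n t‖ ^ 2 /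
              ((A.card : ℝ) + 1) ^ 2)) ∂(haarG q)
            ≤ ∫⁻ _t, ENNReal.ofReal (Real.exp 1) ∂(haarG q) := by
              apply lintegral_mono
              intro t
              apply ENNReal.ofReal_le_ofReal
              apply Real.exp_le_exp.2
              rw [div_le_one (by positivity)]
              have h4 : ‖∑ n ∈ A, (1 : ℂ) * chr n t‖ ≤ A.card := by
                refine (norm_sum_le _ _).trans ?_
                simp [chars.norm]
              have h5 : (0 : ℝ) ≤ A.card := Nat.cast_nonneg _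
              gcongr
              linarith
          _ = _ := by simp
      obtain ⟨c', ⟨hc'0, hc'⟩, hlt⟩ := exists_lt_of_csInf_lt hne h3
      have h4 : ∫ t, Real.exp (‖∑ n ∈ A, (1 : ℂ) * chr n t‖ ^ 2 / c' ^ 2) ∂(haarG q) ≤
          Real.exp 1 := by
        rw [lint_poly A (fun _ => 1) c'] at hc'
        exact (ENNReal.ofReal_le_ofReal_iff (Real.exp_pos _).le).1 hc'
      refine le_trans ?_ h4
      have h5 := int_poly A (fun _ => 1) c
      have h6 := int_poly A (fun _ => 1) c'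
      have e : ∀ t : G q, ∑ n ∈ A, chr n t = ∑ n ∈ A, (1 : ℂ) * chr n t := by
        intro t; simp
      simp_rw [e]
      apply integral_mono h5 h6
      intro t
      apply Real.exp_le_exp.2
      gcongr)
    obtain ⟨Q, hQ, hΛ⟩ := Pool.Agent.H337R3.Sid.finite_union (Γ := Ghat q) q.primeFactorsList
      (fun p hp => Nat.prime_of_mem_primeFactorsList hp) K Λ
      (by rw [Nat.prod_primeFactorsList hq.ne']; exact fun x _ => hexp x) hK
    exact ⟨_, Q, hQ, hΛ⟩
  · rintro ⟨k, Q, hQ, rfl⟩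
    refine ⟨3 * k, ?_⟩
    intro A a hA
    have hsum0 : 0 ≤ ∑ n ∈ A, ‖a n‖ ^ 2 := Finset.sum_nonneg fun n _ => by positivity
    have key : ∀ c : ℝ, 0 < c → 3 * k * √(∑ n ∈ A, ‖a n‖ ^ 2) ≤ c →
        psi2 (fun t => ∑ n ∈ A, a n * chr n t) ≤ c := by
      intro c hc hle
      refine csInf_le ⟨0, fun x hx => hx.1.le⟩ ⟨hc, ?_⟩
      rw [lint_poly]
      apply ENNReal.ofReal_le_ofReal
      apply TH275.Sub.psi2_union chars Q hQ A hA a c hc
      have h1 : (3 * k * √(∑ n ∈ A, ‖a n‖ ^ 2)) ^ 2 ≤ c ^ 2 := by gcongr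
      have h2 : (3 * k * √(∑ n ∈ A, ‖a n‖ ^ 2)) ^ 2 = 9 * (k : ℝ) ^ 2 * ∑ n ∈ A, ‖a n‖ ^ 2 := by
        rw [mul_pow, Real.sq_sqrt hsum0]
        ring
      rw [h2] at h1
      have h3 : 0 ≤ (k : ℝ) ^ 2 * ∑ n ∈ A, ‖a n‖ ^ 2 := by positivity
      nlinarith
    have hnn : 0 ≤ 3 * (k : ℝ) * √(∑ n ∈ A, ‖a n‖ ^ 2) := by positivity
    rcases hnn.eq_or_lt with h | h
    · rw [← h]
      apply le_of_forall_pos_le_add
      intro ε hε
      rw [zero_add]
      exact key ε hε (by rw [← h]; exact hε.le)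
    · exact key _ h le_rfl

end Pool.Agent.Results.MP_080bf7_an.SubgaussianUnions
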